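import Pool.Agent.Lib.MP_b5021c_nt.E.H63.E0Sym

/-!
# Rows E0_FPT, E0_RED
-/

set_option linter.unusedSectionVars false

namespace Pool.Agent.B5.H63.E0

open scoped LaurentPolynomial

open AddMonoidAlgebra

section lattice

variable {K : Type} [AddCommGroup K] [Module.Free ℤ K] [Module.Finite ℤ K]

/-- Two functionals which agree on a spanning set are equal. -/
theorem fun_ext_span {S : Set K} (hS : Submodule.span ℤ S = ⊤) {lam mu : K →+ ℤ}
    (h : ∀ a ∈ S, lam a = mu a) : lam = mu := by
  ext x
  have hx : x ∈ Submodule.span ℤ S := by rw [hS]; trivial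
  induction hx using Submodule.span_induction with
  | mem a ha => exact h a ha
  | zero => rw [map_zero, map_zero]
  | add a b _ _ h1 h2 => rw [map_add, map_add, h1, h2]
  | smul n a _ h1 => rw [map_zsmul, map_zsmul, h1]

/-- A two-level functional on a spanning set is a multiple of a `{0,1}`-functional. -/
theorem two_norm {S : Set K} (hS : Submodule.span ℤ S = ⊤) {lam : K →+ ℤ} {m : ℤ}
    (h : TwoL S lam m) : ∃ lam0 : K →+ ℤ, (∀ a ∈ S, lam0 a = 0 ∨ lam0 a = 1) ∧
      ∀ x, lam x = m * lam0 x := by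
  obtain ⟨hm, h2⟩ := h
  have hdvd : ∀ x, m ∣ lam x := by
    intro x
    have hx : x ∈ Submodule.span ℤ S := by rw [hS]; trivial
    induction hx using Submodule.span_induction with
    | mem a ha =>
      rcases h2 a ha with h | h
      · rw [h]; exact dvd_zero _
      · rw [h]
    | zero => rw [map_zero]; exact dvd_zero _
    | add a b _ _ h1 h2 => rw [map_add]; exact dvd_add h1 h2
    | smul n a _ h1 => rw [map_zsmul, smul_eq_mul]; exact h1.mul_left n
  have hadd : ∀ a b, lam (a + b) / m = lam a / m + lam b / m := by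
    intro a b
    rw [map_add]
    exact Int.add_ediv_of_dvd_left (hdvd a)
  have hzero : lam 0 / m = 0 := by rw [map_zero, Int.zero_ediv]
  refine ⟨{ toFun := fun x => lam x / m, map_zero' := hzero, map_add' := hadd },
    fun a ha => ?_, fun x => ?_⟩
  · rcases h2 a ha with h | h
    · left
      change lam a / m = 0
      rw [h, Int.zero_ediv]
    · right
      change lam a / m = 1
      rw [h, Int.ediv_self hm.ne']
  · change lam x = m * (lam x / m)
    rw [Int.mul_ediv_cancel' (hdvd x)]

end lattice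

variable {O : Type} [CommRing O] [IsDomain O] [IsPrincipalIdealRing O] [Coef O] {P : Type}
  [Fintype P] [DecidableEq P] {L : Type} [AddCommGroup L] [Module.Free ℤ L] [Module.Finite ℤ L]

/-- Facet functionals of the restriction to the lattice spanned by the support are two-level. -/
theorem two_res (hR : RkS) {D : AO O L} (hsp : rk (supp D) = Module.finrank ℤ L)
    (hfac : ∀ lam : L →+ ℤ, FacF (supp D) lam → ∃ m : ℤ, TwoL (supp D) lam m)
    (K : Submodule ℤ L) (hK : K = Submodule.span ℤ (supp D))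
    (htop : Submodule.span ℤ (supp (res K D)) = ⊤)
    (lam : K →+ ℤ)
    (hlam : FacF (supp (res K D)) lam) :
    ∃ m : ℤ, TwoL (supp (res K D)) lam m := by
  have hfr : Module.finrank ℤ K = Module.finrank ℤ L := by rw [hK]; exact hsp
  have hfin : Finite (L ⧸ K) := K.finiteQuotientOfFreeOfRankEq hfr
  set N : ℕ := Nat.card (L ⧸ K) with hN
  have hN0 : 0 < N := Nat.card_pos
  have hNK : ∀ x : L, (N : ℤ) • x ∈ K := by
    intro x
    have h2 : N • (Submodule.Quotient.mk x : L ⧸ K) = 0 := card_nsmul_eq_zero'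
    have h3 : (Submodule.Quotient.mk (N • x) : L ⧸ K) = 0 := by
      rw [← h2]
      rfl
    rw [Submodule.Quotient.mk_eq_zero] at h3
    rw [natCast_zsmul]
    exact h3
  have hmem : ∀ a : L, a ∈ supp D → a ∈ K := fun a ha => by
    rw [hK]; exact Submodule.subset_span ha
  have hsu : ∀ a : K, a ∈ supp (res K D) ↔ (a : L) ∈ supp D := fun a => Iff.rfl
  set mu : L →+ ℤ :=
    { toFun := fun x => lam ⟨(N : ℤ) • x, hNK x⟩
      map_zero' := by
        have : (⟨(N : ℤ) • (0 : L), hNK 0⟩ : K) = 0 := Subtype.ext (smul_zero _)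
        rw [this, map_zero]
      map_add' := fun a b => by
        have : (⟨(N : ℤ) • (a + b), hNK _⟩ : K) = ⟨(N : ℤ) • a, hNK a⟩ + ⟨(N : ℤ) • b, hNK b⟩ :=
          Subtype.ext (smul_add _ _ _)
        rw [this, map_add] } with hmu
  have hmua : ∀ a : K, mu (a : L) = N * lam a := by
    intro a
    have : (⟨(N : ℤ) • (a : L), hNK _⟩ : K) = (N : ℤ) • a := rfl
    change lam ⟨(N : ℤ) • (a : L), hNK _⟩ = N * lam a
    rw [this, map_zsmul, smul_eq_mul]
  have hNz : (N : ℤ) ≠ 0 := by exact_mod_cast hN0.ne'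
  have hmu0 : mu ≠ 0 := by
    intro h0
    apply hlam.1
    ext a
    have h1 := hmua a
    rw [h0] at h1
    have h2 : (N : ℤ) * lam a = 0 := h1.symm
    rcases mul_eq_zero.mp h2 with h3 | h3
    · exact absurd h3 hNz
    · exact h3
  have hmun : ∀ a ∈ supp D, 0 ≤ mu a := by
    intro a ha
    have h1 := hmua ⟨a, hmem a ha⟩
    change 0 ≤ mu ((⟨a, hmem a ha⟩ : K) : L)
    rw [h1]
    exact mul_nonneg (by exact_mod_cast hN0.le) (hlam.2.1 ⟨a, hmem a ha⟩ ha)
  have hmur : rk {a | a ∈ supp D ∧ mu a = 0} + 1 = Module.finrank ℤ L := by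
    rw [← hfr, ← hlam.2.2]
    congr 1
    have himg : {a | a ∈ supp D ∧ mu a = 0} =
        incl K '' {a | a ∈ supp (res K D) ∧ lam a = 0} := by
      ext a
      constructor
      · rintro ⟨ha, hma⟩
        refine ⟨⟨a, hmem a ha⟩, ⟨ha, ?_⟩, rfl⟩
        have h1 := hmua ⟨a, hmem a ha⟩
        change mu a = N * lam ⟨a, hmem a ha⟩ at h1
        rw [hma] at h1
        rcases mul_eq_zero.mp h1.symm with h3 | h3
        · exact absurd h3 hNz
        · exact h3
      · rintro ⟨b, ⟨hb, hlb⟩, rfl⟩
        refine ⟨hb, ?_⟩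
        change mu (b : L) = 0
        rw [hmua b, hlb, mul_zero]
    rw [himg]
    exact (hR K L).2.2.2.1 (incl K) _ Subtype.val_injective
  obtain ⟨m, hm, h2⟩ := hfac mu ⟨hmu0, hmun, hmur⟩
  -- some exponent has `lam a ≠ 0`
  have hex : ∃ a ∈ supp (res K D), lam a ≠ 0 := by
    by_contra hcon
    push Not at hcon
    exact hlam.1 (fun_ext_span htop fun a ha => hcon a ha)
  obtain ⟨a, ha, hla⟩ := hex
  have hma : (N : ℤ) * lam a = m := by
    rcases h2 (a : L) ha with h | h
    · rw [hmua a] at h
      rcases mul_eq_zero.mp h with h3 | h3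
      · exact absurd h3 hNz
      · exact absurd h3 hla
    · rw [hmua a] at h
      exact h
  refine ⟨lam a, lt_of_le_of_ne (hlam.2.1 a ha) (Ne.symm hla), fun b hb => ?_⟩
  rcases h2 (b : L) hb with h | h
  · rw [hmua b] at h
    left
    rcases mul_eq_zero.mp h with h3 | h3
    · exact absurd h3 hNz
    · exact h3
  · rw [hmua b, ← hma] at h
    right
    exact mul_left_cancel₀ hNz h

/-- FACET PORTS for an element whose support spans the lattice and whose facet functionals are
all two-level. -/
theorem ports_of_two (h3 : D3S) (hR : RkS) {D : AO O L} (hst : Stable D) (hun : Unitary D)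
    (hirr : Irreducible D) (htop : Submodule.span ℤ (supp D) = ⊤)
    (htwo : ∀ lam : L →+ ℤ, FacF (supp D) lam → ∃ m : ℤ, TwoL (supp D) lam m) :
    ∃ (P' : Type) (_ : Fintype P') (_ : DecidableEq P') (phi' : L →+ (P' → ℤ)), FP phi' D := by
  classical
  have hrk : rk (supp D) = Module.finrank ℤ L := by
    unfold rk
    rw [htop]
    exact finrank_top ℤ L
  set Zs : (L →+ ℤ) → Finset L := fun lam => D.coeff.support.filter (fun a => lam a = 0) with hZs
  have hZmem : ∀ (lam : L →+ ℤ) (a : L), a ∈ Zs lam ↔ a ∈ supp D ∧ lam a = 0 := by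
    intro lam a
    rw [hZs]
    simp only [Finset.mem_filter, Finsupp.mem_support_iff]
    rfl
  set Q : Finset L → Prop := fun F => ∃ lam : L →+ ℤ, FacF (supp D) lam ∧
    (∀ a ∈ supp D, lam a = 0 ∨ lam a = 1) ∧ Zs lam = F with hQ
  set FF : Finset (Finset L) := (D.coeff.support.powerset).filter Q with hFF
  have hFQ : ∀ F : {F // F ∈ FF}, Q F.1 := fun F => (Finset.mem_filter.mp F.2).2
  choose lf hlf using hFQ
  -- every facet functional is a positive multiple of some `lf F`
  have key : ∀ lam : L →+ ℤ, FacF (supp D) lam → ∃ (F : {F // F ∈ FF}) (m : ℤ), 0 < m ∧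
      ∀ x, lam x = m * lf F x := by
    intro lam hlam
    obtain ⟨m, hm⟩ := htwo lam hlam
    obtain ⟨l0, hl0, hl1⟩ := two_norm htop hm
    have hm0 : 0 < m := hm.1
    have hz : ∀ x, lam x = 0 ↔ l0 x = 0 := by
      intro x
      rw [hl1 x]
      constructor
      · intro h
        rcases mul_eq_zero.mp h with h' | h'
        · exact absurd h' hm0.ne'
        · exact h'
      · intro h
        rw [h, mul_zero]
    have hfac0 : FacF (supp D) l0 := by
      refine ⟨?_, fun a ha => ?_, ?_⟩
      · rintro rfl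
        apply hlam.1
        ext x
        rw [hl1 x]
        simp
      · rcases hl0 a ha with h | h
        · rw [h]
        · rw [h]; norm_num
      · have : {a | a ∈ supp D ∧ l0 a = 0} = {a | a ∈ supp D ∧ lam a = 0} := by
          ext a
          simp only [Set.mem_ofPred_eq, hz]
        rw [this]
        exact hlam.2.2
    have hmemF : Zs l0 ∈ FF := by
      rw [hFF, Finset.mem_filter]
      refine ⟨Finset.mem_powerset.mpr (Finset.filter_subset _ _), l0, hfac0, hl0, rfl⟩
    refine ⟨⟨Zs l0, hmemF⟩, m, hm0, fun x => ?_⟩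
    obtain ⟨hf1, hf2, hf3⟩ := hlf ⟨Zs l0, hmemF⟩
    have : l0 = lf ⟨Zs l0, hmemF⟩ := by
      refine fun_ext_span htop fun a ha => ?_
      have h1 : l0 a = 0 ↔ lf ⟨Zs l0, hmemF⟩ a = 0 := by
        have e1 := hZmem l0 a
        have e2 := hZmem (lf ⟨Zs l0, hmemF⟩) a
        rw [hf3] at e2
        change a ∈ Zs l0 ↔ _ at e2
        constructor
        · intro h
          exact (e2.mp (e1.mpr ⟨ha, h⟩)).2
        · intro h
          exact (e1.mp (e2.mpr ⟨ha, h⟩)).2
      rcases hl0 a ha with h | h
      · rw [h, (h1.mp h)]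
      · rcases hf2 a ha with h' | h'
        · rw [h1.mpr h', h']
        · rw [h, h']
    rw [← this]
    exact hl1 x
  set phi' : L →+ ({F // F ∈ FF} → ℤ) :=
    { toFun := fun a F => lf F a
      map_zero' := by funext F; simp
      map_add' := fun a b => by funext F; simp } with hphi
  refine ⟨{F // F ∈ FF}, inferInstance, inferInstance, phi', ?_⟩
  have hinj : Function.Injective phi' := by
    rw [injective_iff_map_eq_zero]
    intro x hx
    by_contra hx0
    obtain ⟨lp, hlp⟩ := hst.2
    set S : Finset L := D.coeff.support.erase 0 with hS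
    have hins : insert 0 ((S : Finset L) : Set L) = supp D := by
      ext a
      rw [hS]
      simp only [Set.mem_insert_iff, Finset.coe_erase, Set.mem_sdiff, Finset.mem_coe,
        Finsupp.mem_support_iff, Set.mem_singleton_iff]
      constructor
      · rintro (rfl | h)
        · exact hst.1
        · exact h.1
      · intro h
        by_cases ha : a = 0
        · exact Or.inl ha
        · exact Or.inr ⟨h, ha⟩
    have hrS : rk (S : Set L) = Module.finrank ℤ L := by
      rw [← hrk, ← hins]
      exact ((hR L L).2.2.2.2.2.2.2.1 _).symm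
    have hposS : ∃ lam : L →+ ℤ, ∀ a ∈ S, 0 < lam a := by
      refine ⟨lp, fun a ha => ?_⟩
      rw [hS, Finset.mem_erase] at ha
      exact hlp.1 a ha.2 ha.1
    obtain ⟨lam, hl0, hlx, hlr⟩ := h3 L S x hposS hrS hx0
    have hfac : FacF (supp D) lam := by
      refine ⟨?_, fun a ha => ?_, ?_⟩
      · rintro rfl
        exact hlx rfl
      · rw [← hins] at ha
        rcases ha with rfl | ha
        · rw [map_zero]
        · exact hl0 a ha
      · have : {a | a ∈ supp D ∧ lam a = 0} = insert 0 {a | a ∈ S ∧ lam a = 0} := by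
          rw [← hins]
          ext a
          simp only [Set.mem_ofPred_eq, Set.mem_insert_iff, Finset.mem_coe]
          constructor
          · rintro ⟨rfl | h, h'⟩
            · exact Or.inl rfl
            · exact Or.inr ⟨h, h'⟩
          · rintro (rfl | ⟨h, h'⟩)
            · exact ⟨Or.inl rfl, map_zero _⟩
            · exact ⟨Or.inr h, h'⟩
        rw [this, (hR L L).2.2.2.2.2.2.2.1 _]
        exact hlr
    obtain ⟨F, m, hm, hF⟩ := key lam hfac
    apply hlx
    rw [hF x]
    have : lf F x = 0 := congrFun hx F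
    rw [this, mul_zero]
  refine ⟨⟨hinj, fun a ha F => ?_, hst, hun, hirr, hrk⟩, fun F => ?_, fun lam hnn hne hr => ?_⟩
  · exact (hlf F).2.1 a ha
  · refine ⟨?_, ?_⟩
    · intro h
      apply (hlf F).1.1
      ext x
      exact DFunLike.congr_fun h x
    · exact (hlf F).1.2.2
  · obtain ⟨F, m, hm, hF⟩ := key lam ⟨hne, fun a ha => hnn a (Finsupp.mem_support_iff.mpr ha), hr⟩
    refine ⟨F, fun a => ?_⟩
    change lam a = 0 ↔ lf F a = 0
    rw [hF a]
    constructor
    · intro h
      rcases mul_eq_zero.mp h with h' | h'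
      · exact absurd h' hm.ne'
      · exact h'
    · intro h
      rw [h, mul_zero]

/-- (E0_FPT) -/
theorem fpt (hL : LatResS) (h3 : D3S) (hR : RkS) : FptS := by
  intro O _ _ _ _ P L _ _ _ _ _ phi D hD hd hfac
  obtain ⟨h1, h2, h3', h4, h5, h6⟩ := hL O L D (Submodule.span ℤ (supp D)) rfl hD.st.1
  exact ports_of_two h3 hR (h3' hD.st) (h2 hD.un) (h1 hD.irr) h4
    (fun lam hlam => two_res hR hD.spn hfac _ rfl h4 lam hlam)

/-- (E0_RED) -/
theorem red (hT : TwoRedS) (hF : FptS) (hL : LatResS) : FpRedS := by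
  intro O _ _ _ _ P L _ _ _ _ _ phi D hD hd hcl
  obtain ⟨P', L', i1, i2, i3, i4, i5, phi', D', hD', hr', hle', hfac⟩ := hT O P L phi D hD hd hcl
  obtain ⟨P'', j1, j2, phi'', hFP⟩ := hF O P' L' phi' D' hD' (by rw [hr']; exact hd) hfac
  obtain ⟨h1, h2, h3', h4, h5, h6⟩ := hL O L' D' (Submodule.span ℤ (supp D')) rfl hD'.st.1
  refine ⟨P'', Submodule.span ℤ (supp D'), j1, j2, inferInstance, inferInstance, inferInstance,
    phi'', res (Submodule.span ℤ (supp D')) D', hFP, ?_, ?_, h4⟩
  · rw [h6, hD'.spn, hr']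
  · exact hle'

end Pool.Agent.B5.H63.E0
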