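import Pool.Agent.Lib.MP_b5021c_nt.IfaceE5

/-!
# Board b5, row E5_CU5: the closed coefficient of a mutual pair has no zero on the circle
-/

namespace Pool.Agent.B5.H63.Cu5

open Polynomial Complex Filter Topology
open Pool.Agent.MP_b5021c_nt (nz)

theorem exp_two_sub_one (τ : ℝ) :
    Complex.exp (2 * τ * I) - 1 = 2 * (Real.sin τ : ℂ) * (I * Complex.exp (τ * I)) := by
  have h1 : Complex.exp (2 * τ * I) = Complex.exp (τ * I) * Complex.exp (τ * I) := by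
    rw [← Complex.exp_add]; ring_nf
  have h2 : Complex.exp (τ * I) = Real.cos τ + Real.sin τ * I := by
    rw [Complex.exp_mul_I, Complex.ofReal_cos, Complex.ofReal_sin]
  have h3 : (Real.cos τ : ℂ) ^ 2 + (Real.sin τ : ℂ) ^ 2 = 1 := by
    exact_mod_cast Real.cos_sq_add_sin_sq τ
  rw [h1, h2]
  have hI : I ^ 2 = -1 := Complex.I_sq
  linear_combination (Real.sin τ : ℂ) ^ 2 * (-1) * hI + h3

/-- The tangent inequality. -/
theorem tangent {q a : ℂ} (hq : q ≠ 0)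
    (h : 2 * ‖a‖ * ‖q + a‖ ≤ ‖q‖ ^ 2 - ‖a‖ ^ 2) :
    ‖(q + a) / q‖ - ‖(q + a) / q‖ ^ 2 / 2 ≤ ((q + a) / q).re := by
  set e : ℂ := (q + a) / q with he
  have hqn : 0 < ‖q‖ := norm_pos_iff.mpr hq
  have ha : a = (e - 1) * q := by
    rw [he]; field_simp; ring
  have hqa : q + a = e * q := by rw [ha]; ring
  rw [hqa, ha, norm_mul, norm_mul] at h
  have h1 : 2 * ‖e - 1‖ * ‖e‖ ≤ 1 - ‖e - 1‖ ^ 2 := by
    have h2 : (2 * ‖e - 1‖ * ‖e‖) * ‖q‖ ^ 2 ≤ (1 - ‖e - 1‖ ^ 2) * ‖q‖ ^ 2 := by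
      nlinarith [h]
    exact le_of_mul_le_mul_right h2 (by positivity)
  have h3 : ‖e - 1‖ ^ 2 = 1 - 2 * e.re + ‖e‖ ^ 2 := by
    rw [← Complex.normSq_eq_norm_sq, ← Complex.normSq_eq_norm_sq, Complex.normSq_apply,
      Complex.normSq_apply]
    simp only [Complex.sub_re, Complex.sub_im, Complex.one_re, Complex.one_im]
    ring
  have h4 : 1 - ‖e‖ ≤ ‖e - 1‖ := by
    have := norm_sub_norm_le (1 : ℂ) e
    rw [norm_one, norm_sub_rev] at this
    exact this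
  have h5 : 0 ≤ ‖e‖ := norm_nonneg e
  nlinarith [mul_le_mul_of_nonneg_right h4 h5]

theorem cu5 (hN : Nd3S) : Cu5S := by
  intro q a hnz hq hcar hne hb z0 hz0 hv0
  set v : ℂ[X] := q + a with hv
  have hre : ∀ z : ℂ, ‖z‖ = 1 → 0 ≤ (v.eval z * (starRingEnd ℂ) (q.eval z)).re := by
    intro z hz
    have h1 := hcar z hz
    have h2 : ‖a.eval z‖ ^ 2 ≤ ‖q.eval z‖ ^ 2 := by
      have : 0 ≤ 2 * ‖a.eval z‖ * ‖(q + a).eval z‖ := by positivity
      linarith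
    have h3 : ‖a.eval z‖ ≤ ‖q.eval z‖ := by
      exact le_of_sq_le_sq h2 (norm_nonneg _)
    rw [hv, eval_add, add_mul, Complex.add_re, Complex.mul_conj, Complex.normSq_eq_norm_sq,
      Complex.ofReal_re]
    have h4 : -(‖a.eval z‖ * ‖q.eval z‖) ≤ (a.eval z * (starRingEnd ℂ) (q.eval z)).re := by
      have h5 := Complex.abs_re_le_norm (a.eval z * (starRingEnd ℂ) (q.eval z))
      rw [norm_mul, RCLike.norm_conj] at h5
      exact (abs_le.mp h5).1
    nlinarith [norm_nonneg (a.eval z), norm_nonneg (q.eval z)]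
  have hnd := hN q v z0 hnz hq hre hne hb hz0
  obtain ⟨w, hw⟩ : (X - C z0) ∣ v := dvd_iff_isRoot.mpr hv0
  have hw0 : w.eval z0 ≠ 0 := by
    intro h0
    obtain ⟨w', hw'⟩ : (X - C z0) ∣ w := dvd_iff_isRoot.mpr h0
    exact hnd ⟨w', by rw [hw, hw']; ring⟩
  have hz0n : z0 ≠ 0 := by
    rintro rfl
    rw [norm_zero] at hz0
    exact zero_ne_one hz0
  -- the parametrisation
  set zz : ℝ → ℂ := fun τ => z0 * Complex.exp (2 * τ * I) with hzz
  have hzn : ∀ τ, ‖zz τ‖ = 1 := by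
    intro τ
    have : (2 * (τ : ℂ) * I) = ((2 * τ : ℝ) : ℂ) * I := by push_cast; ring
    rw [hzz]
    simp only [norm_mul, hz0, one_mul, this, Complex.norm_exp_ofReal_mul_I]
  have hqz : ∀ τ, q.eval (zz τ) ≠ 0 := fun τ => hq _ (hzn τ)
  set kap : ℝ → ℂ := fun τ => z0 * w.eval (zz τ) / q.eval (zz τ) with hkap
  have hzc : Continuous zz := by rw [hzz]; fun_prop
  have hkc : Continuous kap := by
    rw [hkap]
    refine Continuous.div ?_ ?_ hqz
    · exact continuous_const.mul (w.continuous.comp hzc)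
    · exact q.continuous.comp hzc
  set g : ℝ → ℝ := fun τ => (I * Complex.exp (τ * I) * kap τ).re with hg
  have hgc : Continuous g := by
    rw [hg]
    refine Complex.continuous_re.comp (Continuous.mul ?_ hkc)
    fun_prop
  have key : ∀ τ : ℝ, 2 * |Real.sin τ| * ‖kap τ‖ - 2 * Real.sin τ ^ 2 * ‖kap τ‖ ^ 2 ≤
      2 * Real.sin τ * g τ := by
    intro τ
    have h1 := tangent (hqz τ) (by
      have := hcar (zz τ) (hzn τ)
      rw [eval_add] at this
      exact this)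
    have h2 : (q.eval (zz τ) + a.eval (zz τ)) / q.eval (zz τ) =
        2 * (Real.sin τ : ℂ) * (I * Complex.exp (τ * I) * kap τ) := by
      have h3 : q.eval (zz τ) + a.eval (zz τ) = (zz τ - z0) * w.eval (zz τ) := by
        have h4 : v.eval (zz τ) = ((X - C z0) * w).eval (zz τ) := by rw [← hw]
        rw [eval_mul, eval_sub, eval_X, eval_C] at h4
        rw [← h4, hv, eval_add]
      rw [h3]
      have h5 : zz τ - z0 = z0 * (Complex.exp (2 * τ * I) - 1) := by rw [hzz]; ring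
      rw [h5, exp_two_sub_one, hkap]
      ring
    rw [h2] at h1
    have h6 : ‖2 * (Real.sin τ : ℂ) * (I * Complex.exp (τ * I) * kap τ)‖ =
        2 * |Real.sin τ| * ‖kap τ‖ := by
      rw [norm_mul, norm_mul, norm_mul, norm_mul, Complex.norm_I, Complex.norm_exp_ofReal_mul_I,
        Complex.norm_real, Real.norm_eq_abs]
      simp
    have h7 : (2 * (Real.sin τ : ℂ) * (I * Complex.exp (τ * I) * kap τ)).re =
        2 * Real.sin τ * g τ := by
      have h8 : (2 * (Real.sin τ : ℂ)) = ((2 * Real.sin τ : ℝ) : ℂ) := by push_cast; ring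
      rw [h8, Complex.re_ofReal_mul]
    rw [h6, h7] at h1
    have h9 : (2 * |Real.sin τ| * ‖kap τ‖) ^ 2 / 2 = 2 * Real.sin τ ^ 2 * ‖kap τ‖ ^ 2 := by
      rw [mul_pow, mul_pow, sq_abs]; ring
    rw [h9] at h1
    exact h1
  have hpos : ∀ τ ∈ Set.Ioo (0 : ℝ) 1, 0 ≤ g τ - ‖kap τ‖ + Real.sin τ * ‖kap τ‖ ^ 2 := by
    intro τ hτ
    have hs : 0 < Real.sin τ := Real.sin_pos_of_pos_of_lt_pi hτ.1
      (hτ.2.trans (by linarith [Real.pi_gt_three]))
    have h1 := key τ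
    rw [abs_of_pos hs] at h1
    have h2 : 0 ≤ 2 * Real.sin τ * (g τ - ‖kap τ‖ + Real.sin τ * ‖kap τ‖ ^ 2) := by
      nlinarith [h1]
    exact nonneg_of_mul_nonneg_right h2 (by positivity)
  have hneg : ∀ τ ∈ Set.Ioo (0 : ℝ) 1,
      0 ≤ -g (-τ) - ‖kap (-τ)‖ + Real.sin τ * ‖kap (-τ)‖ ^ 2 := by
    intro τ hτ
    have hs : 0 < Real.sin τ := Real.sin_pos_of_pos_of_lt_pi hτ.1
      (hτ.2.trans (by linarith [Real.pi_gt_three]))
    have h1 := key (-τ)
    rw [Real.sin_neg, abs_neg, abs_of_pos hs] at h1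
    have h2 : 0 ≤ 2 * Real.sin τ * (-g (-τ) - ‖kap (-τ)‖ + Real.sin τ * ‖kap (-τ)‖ ^ 2) := by
      nlinarith [h1]
    exact nonneg_of_mul_nonneg_right h2 (by positivity)
  have hev : ∀ᶠ τ in 𝓝[>] (0 : ℝ), τ ∈ Set.Ioo (0 : ℝ) 1 := Ioo_mem_nhdsGT one_pos
  have l1 : Tendsto (fun τ => g τ - ‖kap τ‖ + Real.sin τ * ‖kap τ‖ ^ 2) (𝓝[>] (0 : ℝ))
      (𝓝 (g 0 - ‖kap 0‖ + Real.sin 0 * ‖kap 0‖ ^ 2)) := by
    have : Continuous fun τ => g τ - ‖kap τ‖ + Real.sin τ * ‖kap τ‖ ^ 2 :=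
      (hgc.sub hkc.norm).add (Real.continuous_sin.mul (hkc.norm.pow 2))
    exact (this.tendsto 0).mono_left nhdsWithin_le_nhds
  have l2 : Tendsto (fun τ => -g (-τ) - ‖kap (-τ)‖ + Real.sin τ * ‖kap (-τ)‖ ^ 2) (𝓝[>] (0 : ℝ))
      (𝓝 (-g (-0) - ‖kap (-0)‖ + Real.sin 0 * ‖kap (-0)‖ ^ 2)) := by
    have hn : Continuous fun τ : ℝ => -τ := continuous_neg
    have : Continuous fun τ => -g (-τ) - ‖kap (-τ)‖ + Real.sin τ * ‖kap (-τ)‖ ^ 2 :=
      ((hgc.comp hn).neg.sub (hkc.comp hn).norm).add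
        (Real.continuous_sin.mul ((hkc.comp hn).norm.pow 2))
    exact (this.tendsto 0).mono_left nhdsWithin_le_nhds
  have e1 := ge_of_tendsto l1 (hev.mono hpos)
  have e2 := ge_of_tendsto l2 (hev.mono hneg)
  rw [Real.sin_zero, zero_mul, add_zero] at e1 e2
  rw [neg_zero] at e2
  have hk0 : ‖kap 0‖ ≤ 0 := by linarith
  have hk1 : kap 0 = 0 := norm_le_zero_iff.mp hk0
  have hzz0 : zz 0 = z0 := by rw [hzz]; simp
  rw [hkap] at hk1
  simp only [hzz0] at hk1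
  rcases div_eq_zero_iff.mp hk1 with h | h
  · rcases mul_eq_zero.mp h with h | h
    · exact hz0n h
    · exact hw0 h
  · exact hq z0 hz0 h

end Pool.Agent.B5.H63.Cu5
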