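import Pool.Agent.Lib.MP_b5021c_nt.E.H07.Mxu

/-!
# Board b5, ALL THETA (PaperALL.md), leaf SEL: the choice of the ray, all loads at once
-/

set_option linter.unusedSectionVars false

namespace Pool.Agent.B5

open scoped LaurentPolynomial

/-- At the ray `S` the load `e0` has the drop `g`, all other loads are drop free. -/
structure DropAt {O : Type} [CommRing O] {P : Type} [Fintype P] {L : Type}
    [AddCommGroup L] (phi : L →+ (P → ℤ)) (D : AO O L) (S : L) (e0 : (RO O)ˣ) (g : ℕ) : Prop where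
  us : Module.finrank ℤ (US e0 S D) + g = Module.finrank ℤ L
  dr : ∀ (i0 : P) (h : co phi i0 S = 1),
    Module.finrank ℤ L = rk (supp (cl (co phi i0) S h e0 D)) + 1 + g
  fr : ∀ e : (RO O)ˣ, e ≠ e0 → ∀ (i0 : P) (h : co phi i0 S = 1),
    Module.finrank ℤ L = rk (supp (cl (co phi i0) S h e D)) + 1

/-- (SEL) THE CHOICE OF THE RAY. There are a number `g`, a load `eta S` for every ray and a
non-empty set `C` of rays with: if `g = 0` then all loads of all rays are drop free (`C` contains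
all rays); if `g ≥ 1` then every `S` in `C` has the drop `g` at the load `eta S` and no drop at the
other loads, and every ray outside `U_S` is in `C` and mutual with `S` (there is at least one; if
`g ≥ 2` there are two independent ones). [uses E2S F3S RkUSS LMNS] -/
def SelxS : Prop := ∀ (O : Type) [CommRing O] [IsDomain O] [IsPrincipalIdealRing O] [Coef O]
  (P L : Type) [Fintype P] [DecidableEq P] [AddCommGroup L] [Module.Free ℤ L]
  [Module.Finite ℤ L] (phi : L →+ (P → ℤ)) (D : AO O L), DD phi D → 2 ≤ Module.finrank ℤ L →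
    ∃ (eta : L → (RO O)ˣ) (g : ℕ) (C : Set L), C.Nonempty ∧ ∀ S ∈ C, Ray D S ∧
      (g = 0 → ∀ (e : (RO O)ˣ) (i0 : P) (h : co phi i0 S = 1),
        Module.finrank ℤ L = rk (supp (cl (co phi i0) S h e D)) + 1) ∧
      (1 ≤ g → DropAt phi D S (eta S) g ∧ (∃ T ∈ C, Mut D S T (eta S) (eta T)) ∧
        (∀ T, Ray D T → T ∉ US (eta S) S D → T ∈ C ∧ Mut D S T (eta S) (eta T))) ∧
      (2 ≤ g → ∃ S1 ∈ C, ∃ S2 ∈ C, Mut D S S1 (eta S) (eta S1) ∧ Mut D S S2 (eta S) (eta S2) ∧
        S2 ∉ satur (US (eta S1) S1 D ⊔ Submodule.span ℤ {S}) ∧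
        S1 ∉ satur (US (eta S2) S2 D ⊔ Submodule.span ℤ {S}))

namespace H63.Sel

open Pool.Agent.B5.H07 Pool.Agent.B5.H63

variable {O : Type} [CommRing O] [IsDomain O] [IsPrincipalIdealRing O] [Coef O] {P : Type}
  [Fintype P] [DecidableEq P] {L : Type} [AddCommGroup L] [Module.Free ℤ L] [Module.Finite ℤ L]

/-- A mutual ray: the drop is concentrated at one load. -/
theorem dropAt_of_mut (hRk : RkUSS) (hL : LMNS) {phi : L →+ (P → ℤ)} {D : AO O L} (hD : DD phi D)
    {S S' : L} {e e' : (RO O)ˣ} (hM : Mut D S S' e e') {g : ℕ}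
    (hg : Module.finrank ℤ (US e S D) + g = Module.finrank ℤ L) : DropAt phi D S e g := by
  have hbin : Bin phi S := hD.bin _ hM.r0.1
  refine ⟨hg, fun i0 h => ?_, fun e'' he i0 h => ?_⟩
  · have h6 := hRk O P L phi D S i0 h e hD.inj hD.bin hbin
    omega
  · have hall : ∀ a ∈ supp D, a ∈ US e'' S D :=
      hL O P L phi D S S' e e' e'' hD.inj hD.bin hM.r0 hM.r1 hM.m0 hM.m1 he
    have hle : Module.finrank ℤ L ≤ Module.finrank ℤ (US e'' S D) := by
      rw [← hD.spn]
      exact Submodule.finrank_mono (Submodule.span_le.mpr hall)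
    have hge : Module.finrank ℤ (US e'' S D) ≤ Module.finrank ℤ L := Submodule.finrank_le _
    have h6 := hRk O P L phi D S i0 h e'' hD.inj hD.bin hbin
    omega

/-- A proper sublattice of smaller rank omits a ray. -/
theorem exists_ray {D : AO O L} (hrk : rk {b | Ray D b} = Module.finrank ℤ L) (U : Submodule ℤ L)
    (hU : Module.finrank ℤ U < Module.finrank ℤ L) : ∃ T, Ray D T ∧ T ∉ U := by
  by_contra hcon
  push Not at hcon
  have h1 : Submodule.span ℤ {b | Ray D b} ≤ U := Submodule.span_le.mpr fun b hb => hcon b hb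
  have h2 := Submodule.finrank_mono h1
  have h3 : Module.finrank ℤ (Submodule.span ℤ {b | Ray D b}) = Module.finrank ℤ L := hrk
  omega

/-- (SEL) -/
theorem selx (hE2 : E2S) (hF3 : F3S) (hRk : RkUSS) (hL : LMNS) : SelxS := by
  classical
  intro O _ _ _ _ P L _ _ _ _ _ phi D hD htwo
  obtain ⟨-, -, -, -, hrk, -⟩ := hE2 O P L phi D hD htwo
  set eta : L → (RO O)ˣ := fun S =>
    if h : ∃ e : (RO O)ˣ, Module.finrank ℤ (US e S D) ≠ Module.finrank ℤ L then h.choose else 1
    with heta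
  have hetaS : ∀ S : L, Module.finrank ℤ (US (eta S) S D) = Module.finrank ℤ L →
      ∀ e : (RO O)ˣ, Module.finrank ℤ (US e S D) = Module.finrank ℤ L := by
    intro S h e
    by_contra hcon
    have hex : ∃ e : (RO O)ˣ, Module.finrank ℤ (US e S D) ≠ Module.finrank ℤ L := ⟨e, hcon⟩
    have h2 : eta S = hex.choose := by rw [heta]; simp only [dif_pos hex]
    rw [h2] at h
    exact hex.choose_spec h
  set dm : L → ℕ := fun S => Module.finrank ℤ (US (eta S) S D) with hdm
  have hdmle : ∀ S, dm S ≤ Module.finrank ℤ L := fun S => Submodule.finrank_le _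
  have hexr : ({b | Ray D b} : Set L).Nonempty := by
    obtain ⟨T, hT, -⟩ := exists_ray hrk ⊥ (by rw [finrank_bot]; omega)
    exact ⟨T, hT⟩
  obtain ⟨S0, hS0, hmin⟩ := WellFounded.has_min
    (measure (fun S : L => Module.finrank ℤ L - dm S)).wf {b | Ray D b} hexr
  have hmax0 : ∀ T, Ray D T → dm T ≤ dm S0 := by
    intro T hT
    have h1 : ¬ (Module.finrank ℤ L - dm T < Module.finrank ℤ L - dm S0) := hmin T hT
    have h2 := hdmle T
    have h3 := hdmle S0
    omega
  refine ⟨eta, Module.finrank ℤ L - dm S0, {S | Ray D S ∧ dm S = dm S0}, ⟨S0, hS0, rfl⟩, ?_⟩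
  rintro S ⟨hR, hS⟩
  have hmax : ∀ T, Ray D T → Module.finrank ℤ (US (eta T) T D) ≤
      Module.finrank ℤ (US (eta S) S D) := by
    intro T hT
    change dm T ≤ dm S
    rw [hS]
    exact hmax0 T hT
  have hM := mxu hF3 O P L phi D eta S hD.inj hD.bin hR hmax
  have hle0 := hdmle S0
  have hmut : ∀ T, Ray D T → T ∉ US (eta S) S D →
      (Ray D T ∧ dm T = dm S0) ∧ Mut D S T (eta S) (eta T) := by
    intro T hT hTU
    obtain ⟨b1, b2, b3⟩ := hM T hT hTU
    exact ⟨⟨hT, by rw [← hS]; exact b2⟩, hR, hT, hTU, b1⟩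
  have hdim : Module.finrank ℤ (US (eta S) S D) = dm S0 := hS
  refine ⟨hR, fun hg e i0 h => ?_, fun hg => ?_, fun hg => ?_⟩
  · have h1 : Module.finrank ℤ (US (eta S) S D) = Module.finrank ℤ L := by omega
    have h2 := hetaS S h1 e
    have h6 := hRk O P L phi D S i0 h e hD.inj hD.bin (hD.bin _ hR.1)
    omega
  · have hus : Module.finrank ℤ (US (eta S) S D) + (Module.finrank ℤ L - dm S0) =
        Module.finrank ℤ L := by omega
    obtain ⟨T, hT, hTU⟩ := exists_ray hrk (US (eta S) S D) (by omega)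
    obtain ⟨hC, hMut⟩ := hmut T hT hTU
    exact ⟨dropAt_of_mut hRk hL hD hMut hus, ⟨T, hC, hMut⟩, hmut⟩
  · obtain ⟨T1, hT1, hTU1⟩ := exists_ray hrk (US (eta S) S D) (by omega)
    obtain ⟨hC1, hMut1⟩ := hmut T1 hT1 hTU1
    set W1 : Submodule ℤ L := satur (US (eta S) S D ⊔ Submodule.span ℤ {T1}) with hW1
    have hW1d : Module.finrank ℤ W1 = dm S0 + 1 := by
      rw [hW1, finrank_satur, finrank_sup_eq (US_sat _ _ _) hTU1, hdim]
    obtain ⟨T2, hT2, hTU2⟩ := exists_ray hrk W1 (by omega)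
    have hTU2' : T2 ∉ US (eta S) S D := fun h =>
      hTU2 (le_satur _ ((le_sup_left : US (eta S) S D ≤ _) h))
    obtain ⟨hC2, hMut2⟩ := hmut T2 hT2 hTU2'
    refine ⟨T1, hC1, T2, hC2, hMut1, hMut2, ?_, ?_⟩
    · rw [(hM T1 hT1 hTU1).2.2]
      exact hTU2
    · rw [(hM T2 hT2 hTU2').2.2]
      intro hcon
      -- `T1` in `satur (U_S + T2)` forces `T2` in `W1`
      have h1 : W1 ≤ satur (US (eta S) S D ⊔ Submodule.span ℤ {T2}) := by
        rw [hW1]
        refine satur_le ?_
        rw [sup_le_iff]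
        refine ⟨fun x hx => le_satur _ ((le_sup_left : US (eta S) S D ≤ _) hx), ?_⟩
        rw [Submodule.span_singleton_le_iff_mem]
        exact hcon
      have h2 : T2 ∈ satur (US (eta S) S D ⊔ Submodule.span ℤ {T2}) :=
        le_satur _ ((le_sup_right : Submodule.span ℤ {T2} ≤ _)
          (Submodule.mem_span_singleton_self T2))
      have h3 := finrank_lt_of_sat h1 (satur_sat _) h2 hTU2
      rw [hW1d, finrank_satur, finrank_sup_eq (US_sat _ _ _) hTU2', hdim] at h3
      omega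

end H63.Sel

end Pool.Agent.B5
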