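import Pool.Agent.Lib.MP_b5021c_nt.IfaceE0
import Pool.Agent.Lib.MP_b5021c_nt.B.H59.CstA

/-!
# Rows E0_SYM, E0_TWO
-/

set_option linter.unusedSectionVars false

namespace Pool.Agent.B5.H63.E0

open scoped LaurentPolynomial

open AddMonoidAlgebra

variable {O : Type} [CommRing O] [IsDomain O] [IsPrincipalIdealRing O] [Coef O] {P : Type}
  [Fintype P] [DecidableEq P] {L : Type} [AddCommGroup L] [Module.Free ℤ L] [Module.Finite ℤ L]

/-- The support of a unitary element is symmetric. -/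
theorem supp_symm (hU : UnitAS) {D : AO O L} (h : Unitary D) :
    ∃ t : L, ∀ a : L, a ∈ supp D ↔ t - a ∈ supp D := by
  obtain ⟨u, hu⟩ := h
  obtain ⟨t, c, hc, huc⟩ := (hU O L (u : AO O L)).mp u.isUnit
  refine ⟨t, fun a => ?_⟩
  have h1 : D.coeff a = rsh (D.coeff (t - a)) * c := by
    conv_lhs => rw [← hu, huc]
    rw [coeff_mul_single_apply, sharp_coeff']
    congr 3
    abel
  change D.coeff a ≠ 0 ↔ D.coeff (t - a) ≠ 0
  rw [not_iff_not, h1]
  constructor
  · intro h2
    rcases mul_eq_zero.mp h2 with h3 | h3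
    · exact H59.rsh_eq_zero.mp h3
    · exact absurd h3 hc.ne_zero
  · intro h2
    rw [h2, map_zero, zero_mul]

theorem supp_finite (D : AO O L) : (supp D).Finite := by
  refine D.coeff.support.finite_toSet.subset fun a ha => ?_
  exact Finsupp.mem_support_iff.mpr ha

theorem zero_supp {D : AO O L} (h : Stable D) : (0 : L) ∈ supp D := h.1

/-- (E0_SYM) -/
theorem sym (hU : UnitAS) (hR : RkS) : SymLS := by
  intro O _ _ _ _ P L _ _ _ _ _ phi D lam hD hne hnn hcard
  obtain ⟨t, ht⟩ := supp_symm hU hD.un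
  have hfin := supp_finite D
  set Z : Set L := {a | a ∈ supp D ∧ lam a = 0} with hZ
  set W : Set L := {a | a ∈ supp D ∧ lam a = lam t} with hW
  have hZfin : Z.Finite := hfin.subset fun a ha => ha.1
  have hWfin : W.Finite := hfin.subset fun a ha => ha.1
  have hle : ∀ a ∈ supp D, lam a ≤ lam t := by
    intro a ha
    have h1 := hnn _ ((ht a).mp ha)
    rw [map_sub] at h1
    linarith
  -- `lam t > 0`
  have hpos : 0 < lam t := by
    by_contra hneg
    push Not at hneg
    apply hne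
    have h0 : ∀ a ∈ supp D, lam a = 0 := fun a ha =>
      le_antisymm ((hle a ha).trans hneg) (hnn a ha)
    -- the kernel contains the span
    by_contra hlam
    have h1 := (hR L L).1 lam hlam
    have h2 : rk (supp D) ≤ Module.finrank ℤ (Ker lam) := by
      have h3 : Submodule.span ℤ (supp D) ≤ Ker lam := by
        rw [Submodule.span_le]
        intro a ha
        exact h0 a ha
      exact Submodule.finrank_mono h3
    rw [hD.spn] at h2
    omega
  -- the bijection
  have hbij : W.ncard = Z.ncard := by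
    refine Set.ncard_congr (fun a _ => t - a) ?_ ?_ ?_
    · rintro a ⟨ha, hla⟩
      exact ⟨(ht a).mp ha, by rw [map_sub, hla, sub_self]⟩
    · intro a b _ _ hab
      simpa using hab
    · rintro b ⟨hb, hlb⟩
      refine ⟨t - b, ⟨(ht b).mp hb, by rw [map_sub, hlb, sub_zero]⟩, by abel⟩
  have hdis : Disjoint Z W := by
    rw [Set.disjoint_left]
    rintro a ⟨_, h1⟩ ⟨_, h2⟩
    rw [h1] at h2
    omega
  have hun : (Z ∪ W).ncard = Z.ncard + W.ncard := Set.ncard_union_eq hdis hZfin hWfin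
  have heq : Z ∪ W = supp D := by
    refine Set.eq_of_subset_of_ncard_le ?_ ?_ hfin
    · rintro a (ha | ha)
      · exact ha.1
      · exact ha.1
    · rw [hun, hbij]; omega
  refine ⟨lam t, hpos, fun a ha => ?_⟩
  rw [← heq] at ha
  rcases ha with ha | ha
  · exact Or.inl ha.2
  · exact Or.inr ha.2

theorem clsLe_trans {p q r : RO O} (h1 : ClsLe p q) (h2 : ClsLe q r) : ClsLe p r := by
  refine ⟨fun N hN => ?_, fun θ hθ => h2.2 θ (h1.2 θ hθ)⟩
  obtain ⟨N', hN', h3⟩ := h1.1 N hN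
  obtain ⟨N'', hN'', h4⟩ := h2.1 N' h3
  exact ⟨N'', hN''.trans hN', h4⟩

theorem clsLe_refl (p : RO O) : ClsLe p p := ⟨fun N h => ⟨N, le_rfl, h⟩, fun _ h => h⟩

theorem clsLe_cls {p q : RO O} (h : ClsLe p q)
    (hp : (∃ N, ClassV N p) ∨ (∃ θ, ClassP θ p)) : (∃ N, ClassV N q) ∨ (∃ θ, ClassP θ q) := by
  rcases hp with ⟨N, hN⟩ | ⟨θ, hθ⟩
  · obtain ⟨N', -, h'⟩ := h.1 N hN
    exact Or.inl ⟨N', h'⟩
  · exact Or.inr ⟨θ, h.2 θ hθ⟩

/-- (E0_TWO) -/
theorem two (hC : CplS) (hS : SymLS) : TwoRedS := by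
  classical
  intro O _ _ _ _ P L _ _ _ _ _ phi D hD hd hcl
  set Q : ℕ → Prop := fun n => ∃ (P' L' : Type) (_ : Fintype P') (_ : DecidableEq P')
    (_ : AddCommGroup L') (_ : Module.Free ℤ L') (_ : Module.Finite ℤ L')
    (phi' : L' →+ (P' → ℤ)) (D' : AO O L'), DD phi' D' ∧
      Module.finrank ℤ L' = Module.finrank ℤ L ∧ ClsLe (D.coeff 0) (D'.coeff 0) ∧
      (supp D').ncard = n with hQ
  have hex : ∃ n, Q n := ⟨_, P, L, inferInstance, inferInstance, inferInstance, inferInstance,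
    inferInstance, phi, D, hD, rfl, clsLe_refl _, rfl⟩
  obtain ⟨P', L', i1, i2, i3, i4, i5, phi', D', hD', hr', hle', hn'⟩ := Nat.find_spec hex
  refine ⟨P', L', i1, i2, i3, i4, i5, phi', D', hD', hr', hle', fun lam hlam => ?_⟩
  obtain ⟨P'', L'', j1, j2, j3, j4, j5, phi'', D'', hD'', hr'', hle'', hn''⟩ :=
    hC O P' L' phi' D' lam hD' (by rw [hr']; exact hd) hlam (clsLe_cls hle' hcl)
  have hmin : Nat.find hex ≤ (supp D'').ncard :=
    Nat.find_min' hex ⟨P'', L'', j1, j2, j3, j4, j5, phi'', D'', hD'', hr''.trans hr',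
      clsLe_trans hle' hle'', rfl⟩
  exact hS O P' L' phi' D' lam hD' hlam.1 hlam.2.1 (by rw [hn', ← hn'']; exact hmin)

end Pool.Agent.B5.H63.E0
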